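import Pool.Agent.Y767.HC.Stm3
import Pool.Agent.W388.LV.FinE
import Pool.Agent.H385R2.WinE

/-!
# Project HC (helper767): 67.25 per cent of the zeros from the large sieve inequality
-/

open Complex Filter Topology Set MeasureTheory

set_option autoImplicit false

namespace Pool.Agent.Y655.HC

open ArithmeticFunction (vonMangoldt)
open H370 (zset mult NN Ns)
open H385 (Rw bt)
open W388.LV

/-! ### translation -/

lemma mult_shift (F : ℂ → ℂ) (c z : ℂ) : mult (fun z => F (z + c)) z = mult F (z + c) := by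
  unfold H370.mult analyticOrderNatAt
  have h := analyticOrderAt_comp_of_deriv_ne_zero (f := F) (g := fun z : ℂ => z + c) (z₀ := z)
    (by fun_prop) (by simp)
  have e : (F ∘ fun z => z + c) = fun z => F (z + c) := rfl
  rw [← e, h]

lemma add_inj (c : ℂ) : Function.Injective (fun z : ℂ => z + c) := fun _ _ h => add_right_cancel h

lemma zset_shift (F : ℂ → ℂ) (W T1 T2 : ℝ) : zset F T1 T2 =
    (fun z : ℂ => z + W * I) '' zset (fun z => F (z + W * I)) (T1 - W) (T2 - W) := by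
  ext s
  constructor
  · rintro ⟨h1, h2, h3, h4, h5⟩
    refine ⟨s - W * I, ⟨?_, ?_, ?_, ?_, ?_⟩, by simp⟩
    · simpa using h1
    · simpa using h2
    · simp; linarith
    · simp; linarith
    · simpa using h5
  · rintro ⟨z, ⟨h1, h2, h3, h4, h5⟩, rfl⟩
    refine ⟨?_, ?_, ?_, ?_, h5⟩
    · simpa using h1
    · simpa using h2
    · simp; linarith
    · simp; linarith

lemma NN_shift (F : ℂ → ℂ) (W T1 T2 : ℝ) :
    NN F T1 T2 = NN (fun z => F (z + W * I)) (T1 - W) (T2 - W) := by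
  unfold H370.NN
  rw [zset_shift F W T1 T2, finsum_mem_image (add_inj _).injOn]
  exact finsum_mem_congr rfl fun z _ => (mult_shift F _ z).symm

lemma Ns_shift (F : ℂ → ℂ) (W T1 T2 : ℝ) :
    Ns F T1 T2 = Ns (fun z => F (z + W * I)) (T1 - W) (T2 - W) := by
  unfold H370.Ns
  rw [← (add_inj (W * I)).injOn.ncard_image (s := {s : ℂ | s ∈ zset (fun z => F (z + W * I))
    (T1 - W) (T2 - W) ∧ s.re = 1 / 2 ∧ mult (fun z => F (z + W * I)) s = 1})]
  congr 1
  ext s
  constructor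
  · rintro ⟨h1, h2, h3⟩
    rw [zset_shift F W T1 T2] at h1
    obtain ⟨z, hz, rfl⟩ := h1
    refine ⟨z, ⟨hz, ?_, ?_⟩, rfl⟩
    · simpa using h2
    · rw [mult_shift]; exact h3
  · rintro ⟨z, ⟨h1, h2, h3⟩, rfl⟩
    refine ⟨?_, ?_, ?_⟩
    · rw [zset_shift F W T1 T2]
      exact ⟨z, h1, rfl⟩
    · simpa using h2
    · rw [mult_shift] at h3; exact h3

/-! ### comparison of the zeros -/

/-- comparison of the zeros of `F` and its translate -/
lemma cmp {d A Q : ℝ} {G : ℂ → ℂ} {a : ℕ → ℂ} (hA : 1 ≤ A) (hQ : 1 ≤ Q)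
    (hG : GoodG d A Q G a) {T W : ℝ} (hW : 0 ≤ W) (hT : W + 4 ≤ T) :
    NN G (T - W) (2 * T - W) ≤ NN G (T - W - 1) T + NN G T (2 * T) ∧
    Ns G T (2 * T) ≤ Ns G (T - W) (2 * T - W) + NN G (2 * T - W - 1) (2 * T) := by
  constructor
  · have h1 := LocD.NN_le_add hA hQ hG (T - W) T T (2 * T - W) (by linarith) (by linarith) le_rfl
    have h2 := LocD.NN_mono hA hQ hG (T1 := T - W) (T2 := T) (T3 := T - W - 1) (T4 := T)
      (by linarith) (by linarith) le_rfl
    have h3 := LocD.NN_mono hA hQ hG (T1 := T) (T2 := 2 * T - W) (T3 := T) (T4 := 2 * T)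
      (by linarith) le_rfl (by linarith)
    omega
  · have hfin := zset_finite_D hA hQ hG (2 * T - W - 1) (2 * T) (by linarith)
    have hfin2 := zset_finite_D hA hQ hG (T - W) (2 * T - W) (by linarith)
    have h1 := LocD.card_le_NN_D hA hQ hG (2 * T - W - 1) (2 * T) (by linarith)
    have h2 : (zset G (2 * T - W - 1) (2 * T)).ncard = hfin.toFinset.card :=
      Set.ncard_eq_toFinset_card _ hfin
    unfold H370.Ns
    have hsub : {s : ℂ | s ∈ zset G T (2 * T) ∧ s.re = 1 / 2 ∧ mult G s = 1} ⊆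
        {s : ℂ | s ∈ zset G (T - W) (2 * T - W) ∧ s.re = 1 / 2 ∧ mult G s = 1} ∪
          zset G (2 * T - W - 1) (2 * T) := by
      rintro s ⟨⟨a1, a2, a3, a4, a5⟩, b, c⟩
      by_cases h : s.im ≤ 2 * T - W
      · exact Or.inl ⟨⟨a1, a2, by linarith, h, a5⟩, b, c⟩
      · push Not at h
        exact Or.inr ⟨a1, a2, by linarith, a4, a5⟩
    have hf : ({s : ℂ | s ∈ zset G (T - W) (2 * T - W) ∧ s.re = 1 / 2 ∧ mult G s = 1} ∪
          zset G (2 * T - W - 1) (2 * T)).Finite :=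
      (hfin2.subset fun s hs => hs.1).union hfin
    have h3 := Set.ncard_le_ncard hsub hf
    have h4 := Set.ncard_union_le {s : ℂ | s ∈ zset G (T - W) (2 * T - W) ∧ s.re = 1 / 2 ∧
      mult G s = 1} (zset G (2 * T - W - 1) (2 * T))
    omega

set_option maxHeartbeats 1000000 in
theorem t_asm' : Pool.Agent.Y767.StAsm' := by
  intro hMSQ
  -- the constants
  obtain ⟨γ, hγ⟩ : ∃ γ : ℝ, γ = 1.414 := ⟨_, rfl⟩
  have h0 : 0 < γ := by rw [hγ]; norm_num
  have hπ : γ < Real.pi := by rw [hγ]; linarith [Real.pi_gt_three]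
  have hconst := H385.Rw_const_d2
  rw [← hγ] at hconst
  obtain ⟨R, hR⟩ : ∃ R : ℝ, R = Rw γ 0 := ⟨_, rfl⟩
  obtain ⟨I1, hI1⟩ : ∃ I1 : ℝ, I1 = ∫ α in (0 : ℝ)..1, α * Rw γ α := ⟨_, rfl⟩
  have hR0 : 0 ≤ R := by rw [hR]; exact H385.Rw_nonneg γ h0 hπ 0
  have hI0 : 0 ≤ I1 := by
    rw [hI1]
    exact intervalIntegral.integral_nonneg zero_le_one
      (fun α hα => mul_nonneg hα.1 (H385.Rw_nonneg γ h0 hπ α))
  rw [← hR, ← hI1] at hconst
  obtain ⟨δ0, hδ0⟩ : ∃ δ0 : ℝ, δ0 = 1.3275 - (R + 2 * I1) := ⟨_, rfl⟩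
  have hδ0p : 0 < δ0 := by rw [hδ0]; linarith
  obtain ⟨D, hD⟩ : ∃ D : ℝ, D = 1 + δ0 / (2 * (2 * I1 + 1)) := ⟨_, rfl⟩
  have hD1 : 1 < D := by
    rw [hD]
    have : 0 < δ0 / (2 * (2 * I1 + 1)) := by positivity
    linarith
  have hDI : 2 * D * I1 ≤ 2 * I1 + δ0 / 2 := by
    have e1 : 2 * D * I1 = 2 * I1 + δ0 * (2 * I1 / (2 * I1 + 1)) / 2 := by
      rw [hD]; field_simp
    rw [e1]
    have e2 : 2 * I1 / (2 * I1 + 1) ≤ 1 := by
      rw [div_le_one (by positivity)]; linarith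
    have e3 : δ0 * (2 * I1 / (2 * I1 + 1)) ≤ δ0 * 1 := mul_le_mul_of_nonneg_left e2 hδ0p.le
    linarith
  obtain ⟨κ0, hκ0⟩ : ∃ κ0 : ℝ, κ0 = 1.3275 - (R + 2 * D * I1) := ⟨_, rfl⟩
  have hκp : 0 < κ0 := by rw [hκ0]; linarith
  refine ⟨D, hD1, ?_⟩
  intro c hsel d A W hd hA hW J ι s X F a hX hG ha hLS
  have hd0 : 0 < d := by linarith
  -- the translates
  obtain ⟨G, hGd⟩ : ∃ G : (j : J) → ι j → ℂ → ℂ, G = fun j i z => F j i (z + W * I) := ⟨_, rfl⟩
  obtain ⟨b, hbd⟩ : ∃ b : (j : J) → ι j → ℕ → ℂ, b = fun j i m =>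
    a j i m * (m : ℂ) ^ (-(W * I : ℂ)) := ⟨_, rfl⟩
  have hG' : ∀ j, ∀ i ∈ s j, GoodG d A (X j) (G j i) (b j i) := by
    intro j i hi
    rw [hGd, hbd]
    exact hG j i hi
  have hn1 : ∀ m : ℕ, 0 < m → ‖(m : ℂ) ^ (-(W * I : ℂ))‖ = 1 := by
    intro m hm
    rw [Complex.norm_natCast_cpow_of_pos hm]
    simp
  have hb : ∀ j, ∀ i ∈ s j, ∀ m, ‖b j i m‖ ≤ d * vonMangoldt m := by
    intro j i hi m
    rw [hbd]
    simp only [norm_mul]
    rcases Nat.eq_zero_or_pos m with rfl | hm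
    · have h1 := ha j i hi 0
      simp only [ArithmeticFunction.map_zero, mul_zero] at h1 ⊢
      have h2 : ‖a j i 0‖ = 0 := le_antisymm h1 (norm_nonneg _)
      rw [h2, zero_mul]
    · rw [hn1 m hm, mul_one]
      exact ha j i hi m
  have hLS' : ∀ ε0 : ℝ, 0 < ε0 → ε0 < 1 → ∃ X0 : ℝ, ∀ j, X0 ≤ X j → ∀ M : ℕ,
      (M : ℝ) ≤ (X j) ^ (d * (1 - ε0)) → ∀ b' : ℕ → ℂ,
      ∑ i ∈ s j, ‖∑ m ∈ Finset.Icc 1 M, b' m * b j i m‖ ^ 2 ≤
        D * (s j).card * ∑ m ∈ Finset.Icc 1 M,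
          ‖b' m‖ ^ 2 * (ArithmeticFunction.vonMangoldt m * ‖c m‖) ^ 2 := by
    intro ε0 hε0 hε01
    obtain ⟨X0, hX0⟩ := hLS ε0 hε0 hε01
    refine ⟨X0, fun j hj M hM b' => ?_⟩
    have h1 := hX0 j hj M hM (fun m => b' m * (m : ℂ) ^ (-(W * I : ℂ)))
    have e1 : ∀ i ∈ s j, ‖∑ m ∈ Finset.Icc 1 M, b' m * b j i m‖ ^ 2 =
        ‖∑ m ∈ Finset.Icc 1 M, b' m * (m : ℂ) ^ (-(W * I : ℂ)) * a j i m‖ ^ 2 := by
      intro i _
      congr 2
      refine Finset.sum_congr rfl fun m _ => ?_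
      rw [hbd]
      ring
    have e2 : ∑ m ∈ Finset.Icc 1 M, ‖b' m * (m : ℂ) ^ (-(W * I : ℂ))‖ ^ 2 *
        (ArithmeticFunction.vonMangoldt m * ‖c m‖) ^ 2 = ∑ m ∈ Finset.Icc 1 M,
          ‖b' m‖ ^ 2 * (ArithmeticFunction.vonMangoldt m * ‖c m‖) ^ 2 := by
      refine Finset.sum_congr rfl fun m hm => ?_
      rw [norm_mul, hn1 m (by have := (Finset.mem_Icc.1 hm).1; omega), mul_one]
    rw [Finset.sum_congr rfl e1]
    rw [e2] at h1
    exact h1
  -- the choice of `β`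
  obtain ⟨r, hr⟩ : ∃ r : ℝ, r = (R + 1) / (R + 1 + κ0 / 4) := ⟨_, rfl⟩
  have hr0 : 0 < r := by rw [hr]; positivity
  have hr1 : r < 1 := by
    rw [hr, div_lt_one (by positivity)]; linarith
  obtain ⟨β, hβd⟩ : ∃ β : ℝ, β = d * r := ⟨_, rfl⟩
  have hβ0 : 0 < β := by rw [hβd]; positivity
  have hβ1 : β < d := by
    rw [hβd]
    calc d * r < d * 1 := mul_lt_mul_of_pos_left hr1 hd0
      _ = d := mul_one d
  have hY := hMSQ c hsel d D hd hD1.le J ι s X b hX hb hLS' γ β h0 hπ hβ0 hβ1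
  rw [← hI1] at hY
  have hc' : 0 ≤ 2 * β * I1 * D := by positivity
  obtain ⟨η, X0, hη, hX0, hcore⟩ := t_coreL d A hd hA J ι s (fun j _ => ((s j).card : ℝ)⁻¹) X G b
    (fun j => (hX j).1) (fun j i hi => ⟨by positivity, hG' j i hi⟩) γ β (2 * β * I1 * D) h0 hπ
    hβ0 hc' (by rw [← hR]; exact hR0) hY (κ0 / 4) (by positivity)
  have hcs : d * Rw γ 0 / β + 2 * β * I1 * D / d + κ0 / 4 ≤ 1.3275 - κ0 / 2 := by
    rw [← hR]
    have e1 : d * R / β ≤ R + κ0 / 4 := by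
      have : d * R / β = R + κ0 / 4 * (R / (R + 1)) := by
        rw [hβd, hr]; field_simp
      rw [this]
      have e2 : R / (R + 1) ≤ 1 := by rw [div_le_one (by positivity)]; linarith
      have e3 : κ0 / 4 * (R / (R + 1)) ≤ κ0 / 4 * 1 := mul_le_mul_of_nonneg_left e2 (by positivity)
      linarith
    have e2 : 2 * β * I1 * D / d ≤ 2 * D * I1 := by
      rw [div_le_iff₀ hd0]
      have : 2 * D * I1 * β ≤ 2 * D * I1 * d := mul_le_mul_of_nonneg_left hβ1.le (by positivity)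
      linarith
    rw [hκ0] at *
    linarith
  obtain ⟨C3, hC3, hlong⟩ := zcount_long_D d A hd hA
  obtain ⟨C2, hC2, hlow⟩ := N_lower_D d A hd hA
  have hpi := Real.pi_pos
  -- the threshold for `L`
  obtain ⟨L0, hL0⟩ : ∃ L0 : ℝ, L0 = 12 + W + 2 * Real.pi * (1 + 5 * C2) +
    4 / κ0 * (3 * C3 * (W + 1)) := ⟨_, rfl⟩
  have hL0a : 12 + W ≤ L0 := by
    have : 0 ≤ 2 * Real.pi * (1 + 5 * C2) + 4 / κ0 * (3 * C3 * (W + 1)) := by positivity
    rw [hL0]; linarith
  have hL0b : 2 * Real.pi * (1 + 5 * C2) ≤ L0 := by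
    have : 0 ≤ 12 + W + 4 / κ0 * (3 * C3 * (W + 1)) := by positivity
    rw [hL0]; linarith
  have hL0c : 4 / κ0 * (3 * C3 * (W + 1)) ≤ L0 := by
    have : 0 ≤ 12 + W + 2 * Real.pi * (1 + 5 * C2) := by positivity
    rw [hL0]; linarith
  refine ⟨min η 1, max X0 (Real.exp L0), lt_min hη one_pos, le_max_of_le_left hX0, ?_⟩
  intro j T hXj hT1 hT2
  have hXX0 : X0 ≤ X j := (le_max_left _ _).trans hXj
  have hXe : Real.exp L0 ≤ X j := (le_max_right _ _).trans hXj
  have hX1 : (1 : ℝ) ≤ X j := hX0.trans hXX0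
  have hXpos : (0 : ℝ) < X j := by linarith
  obtain ⟨L, hL⟩ : ∃ L : ℝ, L = Real.log (X j) := ⟨_, rfl⟩
  have hLL0 : L0 ≤ L := by
    rw [hL, Real.le_log_iff_exp_le hXpos]; exact hXe
  rw [← hL] at hT1
  have hL12 : 12 + W ≤ L := hL0a.trans hLL0
  have hLpos : 0 < L := by linarith
  have hT1' : L ^ 2 ≤ T := by
    refine le_trans ?_ hT1
    exact pow_le_pow_left₀ hLpos.le (le_mul_of_one_le_left hLpos.le hd) 2
  have hTη : T ≤ (X j) ^ η :=
    hT2.trans (Real.rpow_le_rpow_of_exponent_le hX1 (min_le_left _ _))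
  have hTX : T ≤ X j := by
    have := hT2.trans (Real.rpow_le_rpow_of_exponent_le hX1 (min_le_right _ _))
    rwa [Real.rpow_one] at this
  have hLT : L ≤ T := by
    refine le_trans ?_ hT1'
    rw [sq]
    exact le_mul_of_one_le_left hLpos.le (by linarith)
  have hTpos : 0 < T := by linarith
  have hTe : T ≤ Real.exp (1 * L) := by
    rw [one_mul, hL, Real.exp_log hXpos]; exact hTX
  obtain ⟨p1, p2, -, -, -, p6⟩ := H385.param_ok 1 L T 1 one_pos le_rfl (by linarith)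
    (by linarith) hT1' hTe
  have hlogT : Real.log T ≤ L := by
    rw [hL]; exact Real.log_le_log hTpos hTX
  have hlogT0 : 0 ≤ Real.log T := Real.log_nonneg (by linarith)
  have hlogXT : Real.log (X j * T) = L + Real.log T := by
    rw [Real.log_mul hXpos.ne' hTpos.ne', hL]
  have hlog2 : Real.log 2 ≤ 1 := by linarith [Real.log_two_lt_d9]
  have hlogX2T : Real.log (X j * (2 * T)) ≤ 3 * L := by
    rw [Real.log_mul hXpos.ne' (by positivity), Real.log_mul two_ne_zero hTpos.ne', ← hL]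
    linarith
  -- one member
  have hmem : ∀ i ∈ s j, T ≤ (NN (G j i) T (2 * T) : ℝ) ∧
      (NN (F j i) T (2 * T) : ℝ) ≤ NN (G j i) T (2 * T) + 3 * C3 * (W + 1) * L ∧
      (Ns (G j i) T (2 * T) : ℝ) ≤ Ns (F j i) T (2 * T) + 3 * C3 * (W + 1) * L ∧
      (zset (F j i) T (2 * T)).Finite := by
    intro i hi
    have hg := hG' j i hi
    obtain ⟨c1, c2⟩ := cmp hA hX1 hg hW (show W + 4 ≤ T by linarith)
    have eG : G j i = fun z => F j i (z + W * I) := by rw [hGd]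
    refine ⟨?_, ?_, ?_, ?_⟩
    · have hl := hlow (X j) (G j i) (b j i) hX1 hg T L p1 p2
      refine le_trans ?_ hl
      rw [hlogXT]
      have a1 : d * (T / (2 * Real.pi) * L) ≤ T / (2 * Real.pi) * (d * (L + Real.log T)) := by
        calc d * (T / (2 * Real.pi) * L) = T / (2 * Real.pi) * (d * L) := by ring
          _ ≤ _ := mul_le_mul_of_nonneg_left (mul_le_mul_of_nonneg_left (by linarith) hd0.le)
            (by positivity)
      have hlg : L + Real.log T ≤ 3 * L := by linarith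
      have a2 : L * (L + Real.log T) ≤ 3 * T := by
        have : L * (L + Real.log T) ≤ L * (3 * L) := mul_le_mul_of_nonneg_left hlg hLpos.le
        linarith [show L * (3 * L) = 3 * L ^ 2 by ring]
      have a3 : T * (L + Real.log T) ^ 2 * Real.exp (-L ^ 2 / 2) ≤ T := by
        have b1 : (L + Real.log T) ^ 2 ≤ (3 * L) ^ 2 := pow_le_pow_left₀ (by linarith) hlg 2
        have b2 : (L + Real.log T) ^ 2 * Real.exp (-L ^ 2 / 2) ≤ 1 := by
          refine le_trans (mul_le_mul_of_nonneg_right b1 (Real.exp_pos _).le) ?_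
          rw [show (3 * L) ^ 2 = 9 * L ^ 2 by ring]; exact p6
        calc _ = T * ((L + Real.log T) ^ 2 * Real.exp (-L ^ 2 / 2)) := by ring
          _ ≤ T * 1 := mul_le_mul_of_nonneg_left b2 hTpos.le
          _ = T := mul_one T
      have a4 : C2 * (T + L * (L + Real.log T) + T * (L + Real.log T) ^ 2 *
          Real.exp (-L ^ 2 / 2)) ≤ C2 * (5 * T) := mul_le_mul_of_nonneg_left (by linarith) hC2.le
      have a5 : T * (1 + 5 * C2) ≤ d * (T / (2 * Real.pi) * L) := by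
        have q1 : 1 + 5 * C2 ≤ L / (2 * Real.pi) := by
          rw [le_div_iff₀ (by positivity)]
          linarith
        have q2 : T * (1 + 5 * C2) ≤ T * (L / (2 * Real.pi)) := mul_le_mul_of_nonneg_left q1 hTpos.le
        have q3 : 0 ≤ T / (2 * Real.pi) * L := by positivity
        have q4 : 1 * (T / (2 * Real.pi) * L) ≤ d * (T / (2 * Real.pi) * L) :=
          mul_le_mul_of_nonneg_right hd q3
        calc T * (1 + 5 * C2) ≤ T * (L / (2 * Real.pi)) := q2
          _ = 1 * (T / (2 * Real.pi) * L) := by ring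
          _ ≤ _ := q4
      linarith
    · have h1 := NN_shift (F j i) W T (2 * T)
      rw [← eG] at h1
      rw [h1]
      have h2 := hlong (X j) (G j i) (b j i) hX1 hg (T - W - 1) T (by linarith) (by linarith)
      have h3 : (NN (G j i) (T - W) (2 * T - W) : ℝ) ≤ NN (G j i) (T - W - 1) T +
          NN (G j i) T (2 * T) := by exact_mod_cast c1
      have h4 : C3 * (T - (T - W - 1)) * Real.log (X j * T) ≤ C3 * (W + 1) * (3 * L) := by
        have e : T - (T - W - 1) = W + 1 := by ring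
        rw [e, hlogXT]
        exact mul_le_mul_of_nonneg_left (by linarith) (by positivity)
      linarith
    · have h1 := Ns_shift (F j i) W T (2 * T)
      rw [← eG] at h1
      rw [h1]
      have h2 := hlong (X j) (G j i) (b j i) hX1 hg (2 * T - W - 1) (2 * T) (by linarith)
        (by linarith)
      have h3 : (Ns (G j i) T (2 * T) : ℝ) ≤ Ns (G j i) (T - W) (2 * T - W) +
          NN (G j i) (2 * T - W - 1) (2 * T) := by exact_mod_cast c2
      have h4 : C3 * (2 * T - (2 * T - W - 1)) * Real.log (X j * (2 * T)) ≤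
          C3 * (W + 1) * (3 * L) := by
        have e : 2 * T - (2 * T - W - 1) = W + 1 := by ring
        rw [e]
        exact mul_le_mul_of_nonneg_left hlogX2T (by positivity)
      linarith
    · rw [zset_shift (F j i) W T (2 * T), ← eG]
      exact (zset_finite_D hA hX1 hg (T - W) (2 * T - W) (by linarith)).image _
  refine ⟨fun i hi => (hmem i hi).2.2.2, ?_⟩
  -- summation
  have hk := (hcore j T hXX0 (by rw [← hL]; exact hT1') hTη).1
  have hcard : (0 : ℝ) < (s j).card := by exact_mod_cast (hX j).2.card_pos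
  rw [← Finset.mul_sum, ← Finset.mul_sum] at hk
  obtain ⟨cc, hcc⟩ : ∃ cc : ℝ, cc = d * Rw γ 0 / β + 2 * β * I1 * D / d + κ0 / 4 := ⟨_, rfl⟩
  rw [← hcc] at hk hcs
  obtain ⟨S, hS⟩ : ∃ S : ℝ, S = ∑ i ∈ s j, (NN (G j i) T (2 * T) : ℝ) := ⟨_, rfl⟩
  have hS0 : 0 ≤ S := by rw [hS]; exact Finset.sum_nonneg fun _ _ => Nat.cast_nonneg _
  rw [← hS] at hk
  have hk2 : ∑ i ∈ s j, (2 * (NN (G j i) T (2 * T) : ℝ) - (Ns (G j i) T (2 * T) : ℝ)) ≤
      cc * S := by
    have h1 := mul_le_mul_of_nonneg_left hk hcard.le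
    rw [← mul_assoc, mul_inv_cancel₀ hcard.ne', one_mul] at h1
    refine h1.trans (le_of_eq ?_)
    field_simp
  rw [Finset.sum_sub_distrib, ← Finset.mul_sum, ← hS] at hk2
  have hcS : cc * S ≤ (1.3275 - κ0 / 2) * S := mul_le_mul_of_nonneg_right hcs hS0
  obtain ⟨E, hE⟩ : ∃ E : ℝ, E = 3 * C3 * (W + 1) * L := ⟨_, rfl⟩
  have hE0 : 0 ≤ E := by rw [hE]; positivity
  have hSE : 4 / κ0 * ((s j).card * E) ≤ S := by
    have h1 : 4 / κ0 * E ≤ T := by
      refine le_trans ?_ hT1'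
      rw [hE]
      have : 4 / κ0 * (3 * C3 * (W + 1)) * L ≤ L * L :=
        mul_le_mul_of_nonneg_right (hL0c.trans hLL0) hLpos.le
      calc _ = 4 / κ0 * (3 * C3 * (W + 1)) * L := by ring
        _ ≤ L * L := this
        _ = _ := by ring
    have h2 : (s j).card * T ≤ S := by
      rw [hS, ← nsmul_eq_mul]
      exact Finset.card_nsmul_le_sum _ _ _ fun i hi => (hmem i hi).1
    calc 4 / κ0 * ((s j).card * E) = (s j).card * (4 / κ0 * E) := by ring
      _ ≤ (s j).card * T := mul_le_mul_of_nonneg_left h1 hcard.le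
      _ ≤ S := h2
  have hSE' : (s j).card * E ≤ κ0 / 4 * S := by
    have h1 := mul_le_mul_of_nonneg_left hSE (show 0 ≤ κ0 / 4 by positivity)
    have h2 : κ0 / 4 * (4 / κ0 * ((s j).card * E)) = (s j).card * E := by field_simp
    linarith
  have hNF : ∑ i ∈ s j, (NN (F j i) T (2 * T) : ℝ) ≤ S + (s j).card * E := by
    rw [hS, ← nsmul_eq_mul, ← Finset.sum_const, ← Finset.sum_add_distrib]
    refine Finset.sum_le_sum fun i hi => ?_
    rw [hE]
    exact (hmem i hi).2.1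
  have hNs : ∑ i ∈ s j, (Ns (G j i) T (2 * T) : ℝ) ≤ ∑ i ∈ s j, (Ns (F j i) T (2 * T) : ℝ) +
      (s j).card * E := by
    rw [← nsmul_eq_mul, ← Finset.sum_const, ← Finset.sum_add_distrib]
    refine Finset.sum_le_sum fun i hi => ?_
    rw [hE]
    exact (hmem i hi).2.2.1
  have hκS : 0 ≤ κ0 * S := by positivity
  have e1 : cc * S ≤ 1.3275 * S - κ0 * S / 2 := by
    refine hcS.trans (le_of_eq ?_); ring
  have e2 : (s j).card * E ≤ κ0 * S / 4 := by
    refine hSE'.trans (le_of_eq ?_); ring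
  linarith

end Pool.Agent.Y655.HC
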