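import Pool.Agent.Y767.HC.Stm3
import Pool.Agent.W388.LV.MSqW

/-!
# Project HC (helper767): the mean square hypothesis from a large sieve inequality

Adapted from `Pool.Agent.W388.LV.MSqW` and `Pool.Agent.W398.LV.B`, `.C` (helper388, helper398).
-/

open Complex Filter Topology Set MeasureTheory

set_option autoImplicit false

namespace Pool.Agent.Y655.HC

open ArithmeticFunction (vonMangoldt)
open H385 W388 Pool.Agent.W398.LV

/-- the tail -/
theorem tail_leY (β ε0 : ℝ) (h1 : 0 < ε0) (h3 : β / 2 ≤ 1 - 3 * ε0) :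
    ∃ L0 : ℝ, 0 < L0 ∧ ∀ (Y u : ℝ), 0 < Y → L0 ≤ Real.log (Real.sqrt Y) → 0 ≤ u →
      u ≤ β * Real.log (Real.sqrt Y) →
      ∑' n : ℕ, (if ⌊Y ^ (1 - ε0)⌋₊ < n then
        vonMangoldt n * Real.exp (-(u - Real.log n) ^ 2 / 4) else 0) ≤ 1 := by
  obtain ⟨C, hC, h⟩ := H385.lam_sqrt_crude
  refine ⟨max (max (3 / ε0 ^ 2) C) (max (2 / ε0) 1), by positivity, ?_⟩
  intro Y u hN0 hL hu0 hu
  set L : ℝ := Real.log (Real.sqrt Y) with hLd
  have l1 : 3 / ε0 ^ 2 ≤ L := ((le_max_left _ _).trans (le_max_left _ _)).trans hL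
  have l2 : C ≤ L := ((le_max_right _ _).trans (le_max_left _ _)).trans hL
  have l3 : 2 / ε0 ≤ L := ((le_max_left _ _).trans (le_max_right _ _)).trans hL
  have l4 : 1 ≤ L := ((le_max_right _ _).trans (le_max_right _ _)).trans hL
  have hlogN : Real.log Y = 2 * L := by
    rw [hLd, Real.log_sqrt hN0.le]
    ring
  have l3' : 8 ≤ 4 * ε0 * L := by
    rw [div_le_iff₀ h1] at l3
    linarith
  have l1' : 3 ≤ ε0 ^ 2 * L := by
    rw [div_le_iff₀ (by positivity)] at l1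
    linarith
  have hterm : ∀ n : ℕ, (if ⌊Y ^ (1 - ε0)⌋₊ < n then
        vonMangoldt n * Real.exp (-(u - Real.log n) ^ 2 / 4) else 0) ≤
      Real.exp (u / 2 - ε0 ^ 2 * L ^ 2) *
        (vonMangoldt n / Real.sqrt n * Real.exp (-(u - Real.log n) ^ 2 / 8)) := by
    intro n
    have hv := @ArithmeticFunction.vonMangoldt_nonneg n
    split_ifs with hn
    · have hn0 : 0 < n := by omega
      have hn0' : (0 : ℝ) < n := by exact_mod_cast hn0
      rw [term_eq u hn0, mul_comm (Real.exp (u / 2 - ε0 ^ 2 * L ^ 2))]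
      refine mul_le_mul_of_nonneg_left (Real.exp_le_exp.2 ?_) (by positivity)
      have hlog : (1 - ε0) * (2 * L) ≤ Real.log n := by
        rw [← hlogN, ← Real.log_rpow hN0]
        apply Real.log_le_log (Real.rpow_pos_of_pos hN0 _)
        have a1 := Nat.lt_floor_add_one (Y ^ (1 - ε0))
        have a2 : ((⌊Y ^ (1 - ε0)⌋₊ + 1 : ℕ) : ℝ) ≤ (n : ℝ) := by exact_mod_cast hn
        push_cast at a2
        linarith
      have hv2 : 4 * ε0 * L ≤ Real.log n - u := by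
        have : β * L ≤ 2 * (1 - 3 * ε0) * L := mul_le_mul_of_nonneg_right (by linarith) (by linarith)
        nlinarith
      set v : ℝ := Real.log n - u
      have hv8 : 8 ≤ v := l3'.trans hv2
      have hv3 : (4 * ε0 * L) ^ 2 ≤ v ^ 2 := pow_le_pow_left₀ (by positivity) hv2 2
      nlinarith
    · positivity
  have hsum : Summable (fun n : ℕ => if ⌊Y ^ (1 - ε0)⌋₊ < n then
        vonMangoldt n * Real.exp (-(u - Real.log n) ^ 2 / 4) else 0) := by
    refine Summable.of_nonneg_of_le (fun n => ?_) hterm ((h u).1.mul_left _)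
    split_ifs
    · exact mul_nonneg ArithmeticFunction.vonMangoldt_nonneg (Real.exp_pos _).le
    · exact le_rfl
  calc _ ≤ ∑' n : ℕ, Real.exp (u / 2 - ε0 ^ 2 * L ^ 2) *
        (vonMangoldt n / Real.sqrt n * Real.exp (-(u - Real.log n) ^ 2 / 8)) :=
        Summable.tsum_le_tsum hterm hsum ((h u).1.mul_left _)
    _ = Real.exp (u / 2 - ε0 ^ 2 * L ^ 2) * ∑' n : ℕ,
        (vonMangoldt n / Real.sqrt n * Real.exp (-(u - Real.log n) ^ 2 / 8)) := tsum_mul_left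
    _ ≤ Real.exp (u / 2 - ε0 ^ 2 * L ^ 2) * (C * Real.exp (u / 2)) :=
        mul_le_mul_of_nonneg_left (h u).2 (Real.exp_pos _).le
    _ = C * Real.exp (u - ε0 ^ 2 * L ^ 2) := by
        have : Real.exp (u - ε0 ^ 2 * L ^ 2) = Real.exp (u / 2 - ε0 ^ 2 * L ^ 2) *
          Real.exp (u / 2) := by rw [← Real.exp_add]; congr 1; ring
        rw [this]; ring
    _ ≤ C * Real.exp (-L) := by
        refine mul_le_mul_of_nonneg_left (Real.exp_le_exp.2 ?_) hC.le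
        have a1 : u ≤ 2 * L := by
          refine hu.trans ?_
          exact mul_le_mul_of_nonneg_right (by linarith) (by linarith)
        have a2 : 3 * L ≤ ε0 ^ 2 * L * L := mul_le_mul_of_nonneg_right l1' (by linarith)
        nlinarith
    _ ≤ 1 := by
        rw [Real.exp_neg, ← div_eq_mul_inv, div_le_one (Real.exp_pos _)]
        linarith [Real.add_one_le_exp L]

section full

variable (M : ℕ) (a : ℕ → ℂ) (d T u t : ℝ)

theorem a_bd (hd : 0 ≤ d) (hT : 0 ≤ T) (h0 : ∀ n : ℕ, ‖a n‖ ≤ d * vonMangoldt n) (n : ℕ) :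
    ‖a n * ww T u t n‖ ≤ d * wt T t * (vonMangoldt n * Real.exp (-(u - Real.log n) ^ 2 / 4)) := by
  have hv := @ArithmeticFunction.vonMangoldt_nonneg n
  rw [norm_mul]
  rcases Nat.eq_zero_or_pos n with rfl | hn
  · have h1 := h0 0
    simp only [ArithmeticFunction.map_zero, mul_zero] at h1
    have h2 : ‖a 0‖ = 0 := le_antisymm h1 (norm_nonneg _)
    rw [h2]
    simp
  have hn1 : (1 : ℝ) ≤ n := by exact_mod_cast hn
  have hs : 1 ≤ Real.sqrt n := by rw [Real.one_le_sqrt]; exact hn1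
  have h1 := H385.b_bound T u t hT n
  have hw := H385.wt_nonneg T t hT
  calc ‖a n‖ * ‖ww T u t n‖ ≤ (d * vonMangoldt n) * ‖ww T u t n‖ :=
        mul_le_mul_of_nonneg_right (h0 n) (norm_nonneg _)
    _ = d * (vonMangoldt n * ‖ww T u t n‖) := by ring
    _ ≤ d * (wt T t * (vonMangoldt n / Real.sqrt n *
        Real.exp (-(u - Real.log n) ^ 2 / 4))) := mul_le_mul_of_nonneg_left h1 hd
    _ ≤ d * (wt T t * (vonMangoldt n * Real.exp (-(u - Real.log n) ^ 2 / 4))) := by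
        refine mul_le_mul_of_nonneg_left (mul_le_mul_of_nonneg_left ?_ hw) hd
        exact mul_le_mul_of_nonneg_right (div_le_self hv hs) (Real.exp_pos _).le
    _ = _ := by ring

theorem split_inf' (hd : 0 ≤ d) (hT : 0 ≤ T) (h0 : ∀ n : ℕ, ‖a n‖ ≤ d * vonMangoldt n)
    (ht : ∑' n : ℕ, (if M < n then vonMangoldt n * Real.exp (-(u - Real.log n) ^ 2 / 4) else 0) ≤ 1) :
    ∃ r : ℂ, ‖r‖ ≤ d * wt T t ∧
      ∑' n : ℕ, a n * ww T u t n = ∑ n ∈ Finset.Icc 1 M, a n * ww T u t n + r := by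
  set b : ℕ → ℂ := fun n => a n * ww T u t n with hb'
  have hb : ∀ n, ‖b n‖ ≤ d * wt T t * (vonMangoldt n * Real.exp (-(u - Real.log n) ^ 2 / 4)) :=
    a_bd a d T u t hd hT h0
  have hs : Summable b := Summable.of_norm_bounded ((tail_summable u).mul_left _) hb
  have hw := H385.wt_nonneg T t hT
  have hbs : Summable (fun n : ℕ => if M < n then
      vonMangoldt n * Real.exp (-(u - Real.log n) ^ 2 / 4) else 0) := by
    refine Summable.of_nonneg_of_le (fun n => ?_) (fun n => ?_) (tail_summable u)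
    · split_ifs
      · exact mul_nonneg ArithmeticFunction.vonMangoldt_nonneg (Real.exp_pos _).le
      · exact le_rfl
    · split_ifs
      · exact le_rfl
      · exact mul_nonneg ArithmeticFunction.vonMangoldt_nonneg (Real.exp_pos _).le
  have hb2 : ∀ n, ‖(if M < n then b n else 0)‖ ≤ d * wt T t * (if M < n then
      vonMangoldt n * Real.exp (-(u - Real.log n) ^ 2 / 4) else 0) := by
    intro n
    split_ifs
    · exact hb n
    · simp
  have hs2 : Summable (fun n => if M < n then b n else 0) :=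
    Summable.of_norm_bounded (hbs.mul_left _) hb2
  have hz : b 0 = 0 := by
    have := hb 0
    simp only [ArithmeticFunction.map_zero, zero_mul, mul_zero] at this
    exact norm_eq_zero.1 (le_antisymm this (norm_nonneg _))
  refine ⟨∑' n, if M < n then b n else 0, ?_, ?_⟩
  · refine (tsum_of_norm_bounded (hbs.mul_left (d * wt T t)).hasSum hb2).trans ?_
    rw [tsum_mul_left]
    calc _ ≤ d * wt T t * 1 := mul_le_mul_of_nonneg_left ht (by positivity)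
      _ = _ := mul_one _
  · have e1 : ∀ n, b n = (if n ∈ Finset.Icc 1 M then b n else 0) + (if M < n then b n else 0) := by
      intro n
      by_cases h1 : M < n
      · have h2 : n ∉ Finset.Icc 1 M := by
          rw [Finset.mem_Icc]; omega
        rw [if_neg h2, if_pos h1, zero_add]
      · rcases Nat.eq_zero_or_pos n with rfl | hn
        · rw [hz]; simp
        · have h2 : n ∈ Finset.Icc 1 M := by
            rw [Finset.mem_Icc]; omega
          rw [if_pos h2, if_neg h1, add_zero]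
    have hs1 : Summable (fun n => if n ∈ Finset.Icc 1 M then b n else 0) :=
      summable_of_ne_finset_zero (s := Finset.Icc 1 M) fun n hn => if_neg hn
    rw [tsum_congr e1, hs1.tsum_add hs2]
    congr 1
    rw [tsum_eq_sum (s := Finset.Icc 1 M) fun n hn => if_neg hn]
    exact Finset.sum_congr rfl fun n hn => if_pos hn

end full

/-- the mean square at a point -/
theorem pt {ι : Type} (s : Finset ι) (hs : s.Nonempty) (c : ℕ → ℂ) (a : ι → ℕ → ℂ) (M : ℕ)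
    (d D T u t δ : ℝ) (hd : 0 ≤ d) (hD : 0 ≤ D) (hT : 0 ≤ T) (hδ : 0 < δ)
    (h0 : ∀ i ∈ s, ∀ n : ℕ, ‖a i n‖ ≤ d * vonMangoldt n)
    (hLS : ∀ b : ℕ → ℂ, ∑ i ∈ s, ‖∑ m ∈ Finset.Icc 1 M, b m * a i m‖ ^ 2 ≤
      D * s.card * ∑ m ∈ Finset.Icc 1 M, ‖b m‖ ^ 2 * (vonMangoldt m * ‖c m‖) ^ 2)
    (ht : ∑' n : ℕ, (if M < n then vonMangoldt n * Real.exp (-(u - Real.log n) ^ 2 / 4) else 0) ≤ 1) :
    ∑ i ∈ s, (s.card : ℝ)⁻¹ * ‖∑' n : ℕ, a i n * ww T u t n‖ ^ 2 ≤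
      (1 + δ) * D * ∑ n ∈ Finset.Icc 1 M, vonMangoldt n ^ 2 * ‖c n * ww T u t n‖ ^ 2 +
      (1 + 1 / δ) * d ^ 2 * wt T t ^ 2 := by
  have hw := H385.wt_nonneg T t hT
  have hc : (0 : ℝ) < s.card := by exact_mod_cast hs.card_pos
  choose! r hr1 hr2 using fun i (hi : i ∈ s) => split_inf' M (a i) d T u t hd hT (h0 i hi) ht
  have e1 : ∀ i ∈ s, (s.card : ℝ)⁻¹ * ‖∑' n : ℕ, a i n * ww T u t n‖ ^ 2 ≤
      (1 + δ) * ((s.card : ℝ)⁻¹ * ‖∑ m ∈ Finset.Icc 1 M, ww T u t m * a i m‖ ^ 2) +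
        (s.card : ℝ)⁻¹ * ((1 + 1 / δ) * d ^ 2 * wt T t ^ 2) := by
    intro i hi
    rw [hr2 i hi]
    have h1 := norm_add_sq_le (∑ m ∈ Finset.Icc 1 M, a i m * ww T u t m) (r i) δ hδ
    have h3 : ‖r i‖ ^ 2 ≤ (d * wt T t) ^ 2 := pow_le_pow_left₀ (norm_nonneg _) (hr1 i hi) 2
    have h2 : ∑ m ∈ Finset.Icc 1 M, a i m * ww T u t m =
        ∑ m ∈ Finset.Icc 1 M, ww T u t m * a i m := Finset.sum_congr rfl fun _ _ => mul_comm _ _
    have h5 : ‖∑ m ∈ Finset.Icc 1 M, a i m * ww T u t m + r i‖ ^ 2 ≤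
        (1 + δ) * ‖∑ m ∈ Finset.Icc 1 M, ww T u t m * a i m‖ ^ 2 +
        (1 + 1 / δ) * (d * wt T t) ^ 2 := by
      rw [h2] at h1 ⊢
      exact h1.trans (add_le_add le_rfl (mul_le_mul_of_nonneg_left h3 (by positivity)))
    have h6 := mul_le_mul_of_nonneg_left h5 (inv_nonneg.2 hc.le)
    refine h6.trans (le_of_eq ?_)
    ring
  refine (Finset.sum_le_sum e1).trans ?_
  rw [Finset.sum_add_distrib, ← Finset.mul_sum, ← Finset.mul_sum, Finset.sum_const, nsmul_eq_mul]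
  have g1 : (s.card : ℝ)⁻¹ * ∑ i ∈ s, ‖∑ m ∈ Finset.Icc 1 M, ww T u t m * a i m‖ ^ 2 ≤
      D * ∑ n ∈ Finset.Icc 1 M, vonMangoldt n ^ 2 * ‖c n * ww T u t n‖ ^ 2 := by
    have h1 := mul_le_mul_of_nonneg_left (hLS (fun m => ww T u t m)) (inv_nonneg.2 hc.le)
    refine h1.trans (le_of_eq ?_)
    have h2 : ∑ m ∈ Finset.Icc 1 M, ‖ww T u t m‖ ^ 2 * (vonMangoldt m * ‖c m‖) ^ 2 =
        ∑ n ∈ Finset.Icc 1 M, vonMangoldt n ^ 2 * ‖c n * ww T u t n‖ ^ 2 := by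
      refine Finset.sum_congr rfl fun n _ => ?_
      rw [norm_mul]
      ring
    rw [h2]
    field_simp
  have g2 : (s.card : ℝ) * ((s.card : ℝ)⁻¹ * ((1 + 1 / δ) * d ^ 2 * wt T t ^ 2)) =
      (1 + 1 / δ) * d ^ 2 * wt T t ^ 2 := by
    field_simp
  rw [g2]
  refine add_le_add ?_ le_rfl
  calc (1 + δ) * ((s.card : ℝ)⁻¹ * ∑ i ∈ s, ‖∑ m ∈ Finset.Icc 1 M, ww T u t m * a i m‖ ^ 2) ≤
      (1 + δ) * (D * ∑ n ∈ Finset.Icc 1 M, vonMangoldt n ^ 2 * ‖c n * ww T u t n‖ ^ 2) :=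
        mul_le_mul_of_nonneg_left g1 (by positivity)
    _ = _ := by ring

/-- the mean square, integrated -/
theorem int_pt {c : ℕ → ℂ} (hcm : MeanC c) :
    ∃ C0 : ℝ, 0 < C0 ∧ ∀ (δ d D : ℝ), 0 < δ → 0 ≤ d → 0 ≤ D → ∀ {ι : Type} (s : Finset ι)
      (a : ι → ℕ → ℂ) (M : ℕ) (T κ u : ℝ), s.Nonempty → 1 ≤ κ → 1 ≤ T → T ≤ Real.exp (κ ^ 2) →
    (∀ i ∈ s, ∀ n : ℕ, ‖a i n‖ ≤ d * vonMangoldt n) →
    (∀ b : ℕ → ℂ, ∑ i ∈ s, ‖∑ m ∈ Finset.Icc 1 M, b m * a i m‖ ^ 2 ≤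
      D * s.card * ∑ m ∈ Finset.Icc 1 M, ‖b m‖ ^ 2 * (vonMangoldt m * ‖c m‖) ^ 2) →
    (∑' n : ℕ, (if M < n then vonMangoldt n *
      Real.exp (-(u - Real.log n) ^ 2 / 4) else 0) ≤ 1) →
    ∫ t : ℝ, ∑ i ∈ s, (s.card : ℝ)⁻¹ * ‖∑' n : ℕ, a i n *
        ((Real.sqrt n : ℂ)⁻¹ * bt T u t (Real.log n))‖ ^ 2 ≤
      (1 + δ) * D * (T / (2 * Real.pi) * SWu c 1 u + C0 * κ * SWu c (1 / 2) u) +
      (T + C0) * ((1 + 1 / δ) * d ^ 2) := by
  obtain ⟨C5, hC5, h5⟩ := btc_sum_int_E hcm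
  obtain ⟨C7, hC7, h7⟩ := wt_sq_int
  refine ⟨C5 + C7, by positivity, ?_⟩
  intro δ d D hδ hd hD ι s a M T κ u hs hκ hT hTκ h0 hLS ht
  have hT0 : 0 ≤ T := by linarith
  obtain ⟨i1, i2⟩ := h5 T κ u M hκ hT hTκ
  obtain ⟨j1, j2⟩ := h7 T hT0
  have hS1 := SWu_nonneg c 1 u
  have hS2 := SWu_nonneg c (1 / 2) u
  obtain ⟨D1, hD1⟩ : ∃ x : ℝ, x = (1 + δ) * D := ⟨_, rfl⟩
  obtain ⟨E, hE⟩ : ∃ x : ℝ, x = (1 + 1 / δ) * d ^ 2 := ⟨_, rfl⟩
  have hE0 : 0 ≤ E := by rw [hE]; positivity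
  have hD0 : 0 ≤ D1 := by rw [hD1]; positivity
  rw [← hD1, ← hE]
  calc _ ≤ ∫ t : ℝ, (D1 * ∑ n ∈ Finset.Icc 1 M, (vonMangoldt n) ^ 2 *
          ‖c n * ((Real.sqrt n : ℂ)⁻¹ * bt T u t (Real.log n))‖ ^ 2 + E * wt T t ^ 2) := by
        refine integral_mono_of_nonneg ?_ ?_ ?_
        · refine Filter.Eventually.of_forall (fun t => ?_)
          exact Finset.sum_nonneg fun i hi => mul_nonneg (by positivity) (sq_nonneg _)
        · exact (i1.const_mul _).add (j1.const_mul _)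
        · refine Filter.Eventually.of_forall (fun t => ?_)
          rw [hD1, hE]
          exact pt s hs c a M d D T u t δ hd hD hT0 hδ h0 hLS ht
    _ = D1 * (∫ t : ℝ, ∑ n ∈ Finset.Icc 1 M, (vonMangoldt n) ^ 2 *
          ‖c n * ((Real.sqrt n : ℂ)⁻¹ * bt T u t (Real.log n))‖ ^ 2) +
          E * (∫ t : ℝ, wt T t ^ 2) := by
        rw [integral_add (i1.const_mul _) (j1.const_mul _), integral_const_mul, integral_const_mul]
    _ ≤ D1 * (T / (2 * Real.pi) * SWu c 1 u + C5 * κ * SWu c (1 / 2) u) + E * (T + C7) := by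
        exact add_le_add (mul_le_mul_of_nonneg_left i2 hD0) (mul_le_mul_of_nonneg_left j2 hE0)
    _ ≤ _ := by
        refine add_le_add ?_ ?_
        · refine mul_le_mul_of_nonneg_left ?_ hD0
          have : C5 ≤ C5 + C7 := by linarith
          gcongr
        · rw [mul_comm]
          have e2 : T + C7 ≤ T + (C5 + C7) := by linarith
          exact mul_le_mul e2 le_rfl hE0 (by positivity)

/-- **MSQ** -/
theorem t_msqn : Pool.Agent.Y767.StMSQn := by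
  intro c hsel d D hd hD J ι s X a hX ha hLS γ β h0 hπ hβ hβd ε hε
  have hD0 : 0 < D := by linarith
  have hd0 : 0 < d := by linarith
  obtain ⟨ε', hε'd⟩ : ∃ ε' : ℝ, ε' = ε / D := ⟨_, rfl⟩
  have hε' : 0 < ε' := by rw [hε'd]; positivity
  have hε'D : ε' * D = ε := by rw [hε'd]; field_simp
  obtain ⟨s1, s2, s3, s4, ⟨Cs, hCs, s5, s6, s7, s8⟩, s9⟩ := Pool.Agent.W261.TW.t_smooth c hsel
  obtain ⟨n1, _, _, _⟩ := W566TW.t_noncop c hsel
  have hcm : MeanC c := ⟨n1, s2⟩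
  have hs : SmC c Cs := ⟨s3, s4, s5, s6, s7, s8, s9⟩
  obtain ⟨ε1, hε1, hε1', hfin⟩ := YF_final hcm hCs hs γ β h0 hπ hβ ε' hε'
  obtain ⟨C0, hC0, hint⟩ := int_pt hcm
  obtain ⟨δ, hδd⟩ : ∃ δ : ℝ, δ = ε1 / 2 := ⟨_, rfl⟩
  have hδ : 0 < δ := by rw [hδd]; positivity
  obtain ⟨ε0, hε0d⟩ : ∃ x : ℝ, x = (1 - β / d) / 3 := ⟨_, rfl⟩
  have hbd : β / d < 1 := by rw [div_lt_one hd0]; exact hβd
  have hbd0 : 0 < β / d := by positivity
  have hε0 : 0 < ε0 := by rw [hε0d]; linarith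
  have hε01 : ε0 < 1 := by rw [hε0d]; linarith
  obtain ⟨Lt, hLt, htail⟩ := tail_leY (2 * β / d) ε0 hε0 (by
    rw [hε0d]
    have : 2 * β / d / 2 = β / d := by ring
    rw [this]
    linarith)
  obtain ⟨N1, hN1⟩ := hLS ε0 hε0 hε01
  have hE0 : 0 < (1 + 1 / δ) * d ^ 2 := by positivity
  obtain ⟨L0, hL0, hY⟩ := hfin C0 ((1 + 1 / δ) * d ^ 2) hC0 hE0
  refine ⟨1, Real.exp (max (max L0 (2 * Lt / d)) 1) + |N1|, one_pos, ?_, ?_⟩
  · have h1 : (1 : ℝ) ≤ Real.exp (max (max L0 (2 * Lt / d)) 1) :=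
      Real.one_le_exp (le_max_of_le_right zero_le_one)
    have h2 : (0 : ℝ) ≤ |N1| := abs_nonneg _
    linarith
  intro j T hXj hT1 hT2
  have h2 : (0 : ℝ) ≤ |N1| := abs_nonneg _
  have hXe : Real.exp (max (max L0 (2 * Lt / d)) 1) ≤ X j := by linarith
  have hexp1 : (0 : ℝ) < Real.exp (max (max L0 (2 * Lt / d)) 1) := Real.exp_pos _
  have hXpos : 0 < X j := lt_of_lt_of_le hexp1 hXe
  have hX1 : 1 ≤ X j := (hX j).1
  have hNN1 : N1 ≤ X j := by
    have := le_abs_self N1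
    linarith
  obtain ⟨L, hL⟩ : ∃ L : ℝ, L = Real.log (X j) := ⟨_, rfl⟩
  rw [← hL] at hT1 ⊢
  have hLmax : max (max L0 (2 * Lt / d)) 1 ≤ L := by
    rw [hL, Real.le_log_iff_exp_le hXpos]; exact hXe
  have hLL0 : L0 ≤ L := ((le_max_left _ _).trans (le_max_left _ _)).trans hLmax
  have hLLt : 2 * Lt / d ≤ L := ((le_max_right _ _).trans (le_max_left _ _)).trans hLmax
  have hL1 : 1 ≤ L := (le_max_right _ _).trans hLmax
  have hTn : 1 ≤ T := (one_le_pow₀ hL1).trans hT1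
  have hTe : T ≤ Real.exp (L ^ 2) := by
    refine hT2.trans ?_
    rw [Real.rpow_one]
    calc X j = Real.exp L := by rw [hL, Real.exp_log hXpos]
      _ ≤ _ := Real.exp_le_exp.mpr (le_self_pow₀ hL1 two_ne_zero)
  have hcard : (0 : ℝ) < (s j).card := by exact_mod_cast (hX j).2.card_pos
  have hW : ∑ i ∈ s j, ((s j).card : ℝ)⁻¹ = 1 := by
    rw [Finset.sum_const, nsmul_eq_mul]
    exact mul_inv_cancel₀ hcard.ne'
  simp only [hW]
  have hD1W : (1 + δ) * D ≤ (1 + 11 * ε1) * D := by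
    refine mul_le_mul_of_nonneg_right ?_ hD0.le
    rw [hδd]
    linarith
  obtain ⟨y1, y2, hy1, hy2, m1, m2, m3⟩ := hY L T ((1 + δ) * D) D 0 hLL0 le_rfl hT1
    (by linarith) (by positivity) hD1W
  have hL0' : 0 ≤ L := by linarith
  have hT0' : 0 ≤ T := by linarith
  refine ⟨YE c ((1 + δ) * D) T L C0 ((1 + 1 / δ) * d ^ 2) 0, y1, y2, hy1, hy2, ?_, m1,
    (YE_cont hs _ _ _ _ _ _).intervalIntegrable _ _, ?_, ?_⟩
  rotate_left
  · refine m3.trans (le_of_eq ?_)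
    rw [← hε'D]
    ring
  · refine m2.trans ?_
    rw [Real.sqrt_one, mul_one]
    have q1 : Real.sqrt D ≤ D := by
      rw [Real.sqrt_le_left (by linarith)]
      nlinarith
    calc ε' * L * Real.sqrt D ≤ ε' * L * D := mul_le_mul_of_nonneg_left q1 (by positivity)
      _ = (ε' * D) * L := by ring
      _ = ε * L := by rw [hε'D]
  intro u hu
  obtain ⟨Y, hYd⟩ : ∃ Y : ℝ, Y = (X j) ^ d := ⟨_, rfl⟩
  have hY0 : 0 < Y := by rw [hYd]; exact Real.rpow_pos_of_pos hXpos _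
  have hlogY : Real.log (Real.sqrt Y) = d / 2 * L := by
    rw [Real.log_sqrt hY0.le, hYd, Real.log_rpow hXpos, hL]
    ring
  have hYe : Y ^ (1 - ε0) = (X j) ^ (d * (1 - ε0)) := by
    rw [hYd, ← Real.rpow_mul hXpos.le]
  have ht := htail Y u hY0 (by
      rw [hlogY]
      rw [div_le_iff₀ hd0] at hLLt
      linarith) hu.1 (by
      rw [hlogY]
      have : 2 * β / d * (d / 2 * L) = β * L := by field_simp
      rw [this]
      exact hu.2)
  rw [hYe] at ht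
  have h := hint δ d D hδ hd0.le hD0.le (s j) (a j) ⌊(X j) ^ (d * (1 - ε0))⌋₊ T L u (hX j).2
    hL1 hTn hTe (fun i hi n => ha j i hi n)
    (fun b => hN1 j hNN1 _ (Nat.floor_le (by positivity)) b) ht
  refine h.trans ?_
  unfold YE
  refine add_le_add le_rfl ?_
  refine mul_le_mul_of_nonneg_left ?_ (by positivity)
  have hWu := Wu_nonneg c u
  calc (1 + 1 / δ) * d ^ 2 = (1 + 1 / δ) * d ^ 2 * (0 + 1) * 1 := by ring
    _ ≤ (1 + 1 / δ) * d ^ 2 * (0 + 1) * (Wu c u + 1) := by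
        refine mul_le_mul_of_nonneg_left (by linarith) (by positivity)

end Pool.Agent.Y655.HC
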